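import Pool.Agent.U19.SN.Mem

/-!
# Testing an upper bound on the spectral norm of a 3-tensor is `∀ℝ`-complete

Idea of the hardness proof. By the gap theorem for systems of equations over the reals, a formula
of the existential theory of the reals is translated into a quartic form
`F = ∑ₖ qₖ(w)² - w_e⁴` (`qₖ` quadratic forms with small integer coefficients; `w_e` is forced to be
doubly exponentially small by repeated squaring) which takes a negative value if and only if the
formula is satisfiable. Let `Qₖ` be the symmetric bilinear form of `qₖ`. For a suitable integer `δ`,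
the biquadratic form
`B(x, y) = (δ + 1)² |x|² |y|² - δ² (|x|² |y|² - ⟨x, y⟩²) - 2 ∑ₖ Qₖ(x, y)² + 2 (x_e y_e)²`
is a sum of squares of bilinear forms `ℓⱼ(x, y)` with integer coefficients, which can be written
down explicitly. Writing `x = p + q`, `y = p - q` for unit vectors `x`, `y` one sees that `B(x, y)`
exceeds `(δ + 1)²` for some unit vectors if and only if `F` takes a negative value. The maximum of
`B` on unit vectors is the square of the spectral norm of the tensor `∑ⱼ ℓⱼ(x, y) zⱼ`.
-/

set_option autoImplicit false

namespace Pool.Agent.Results.MP_50cd9e_lc.Complete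

open Pool.Agent.NPC Pool.Agent.NPC.ER Pool.Agent.NPC.ER.SN19

/-- SPECTRAL-NORM-EXCEED is `∃ℝ`-complete and SPECTRAL-NORM-BOUND is `∀ℝ`-complete. -/
theorem result : ERComplete (lang SNExceed) ∧ FRComplete (lang SNBound) :=
  ⟨⟨inER_exceed, hard_exceed⟩, ⟨inFR_bound, hard_bound⟩⟩

end Pool.Agent.Results.MP_50cd9e_lc.Complete
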